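import Pool.Agent.J4H12.MX.Stm

/-! # Project MX: a special case of Tate's theorem (TAT) -/

set_option autoImplicit false

universe u v w

namespace Pool.Agent.J4H28.MX

open Pool.Agent.J4H12.MX
open scoped commutatorElement

/-- a pullback of a central extension of `p`-groups which splits over a Sylow subgroup splits -/
theorem split {H : Type u} {Pb : Type v} {Γ : Type w} [Group H] [Finite H] [Group Pb] [Finite Pb]
    [Group Γ] {p : ℕ} [Fact p.Prime] (hPb : IsPGroup p Pb) (α : H →* Γ) (β : Pb →* Γ)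
    (hαβ : ∀ h, ∃ y, β y = α h) (hc : ∀ c ∈ β.ker, ∀ y : Pb, c * y = y * c)
    (P : Subgroup H) (hP : ¬ p ∣ P.index) (γ : P →* Pb) (hγ : ∀ x : P, β (γ x) = α x) :
    ∃ σ : H →* Pb, ∀ h, β (σ h) = α h := by
  classical
  letI : CommGroup β.ker :=
    { (inferInstance : Group β.ker) with mul_comm := fun a b => Subtype.ext (hc a a.2 b) }
  let E : Subgroup (H × Pb) := (α.comp (MonoidHom.fst H Pb)).eqLocus (β.comp (MonoidHom.snd H Pb))
  have hE : ∀ z : H × Pb, z ∈ E ↔ α z.1 = β z.2 := fun z => Iff.rfl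
  let π1 : E →* H := (MonoidHom.fst H Pb).comp E.subtype
  let π2 : E →* Pb := (MonoidHom.snd H Pb).comp E.subtype
  have hz : ∀ z : E, α (π1 z) = β (π2 z) := fun z => z.2
  have hπ1 : Function.Surjective π1 := by
    intro h
    obtain ⟨y, hy⟩ := hαβ h
    exact ⟨⟨(h, y), hy.symm⟩, rfl⟩
  let PE : Subgroup E := P.comap π1
  have hidx : PE.index = P.index := Subgroup.index_comap_of_surjective _ hπ1
  let g (z : PE) : P := ⟨π1 z, z.2⟩
  have hker : ∀ z : PE, (γ (g z))⁻¹ * π2 z ∈ β.ker := by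
    intro z
    rw [MonoidHom.mem_ker, map_mul, map_inv, hγ, ← hz]
    exact inv_mul_cancel _
  let τ : PE →* β.ker := MonoidHom.mk' (fun z => ⟨(γ (g z))⁻¹ * π2 z, hker z⟩) (by
    intro z z'
    apply Subtype.ext
    have h1 : g (z * z') = g z * g z' := rfl
    have h2 : π2 ((z * z' : PE) : E) = π2 z * π2 z' := map_mul π2 _ _
    have h3 := hc _ (hker z) ((γ (g z'))⁻¹)
    change (γ (g (z * z')))⁻¹ * π2 ((z * z' : PE) : E) =
      ((γ (g z))⁻¹ * π2 z) * ((γ (g z'))⁻¹ * π2 z')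
    rw [h1, h2, map_mul, mul_inv_rev, ← mul_assoc ((γ (g z))⁻¹ * π2 (z : E)), h3]
    group)
  let T : E →* β.ker := MonoidHom.transfer τ
  -- the numbers
  obtain ⟨N, hN⟩ := IsPGroup.iff_card.1 hPb
  have hcop : Nat.Coprime P.index (Nat.card Pb) := by
    rw [hN]
    exact Nat.Coprime.pow_right _ (((Nat.Prime.coprime_iff_not_dvd Fact.out).2 hP).symm)
  obtain ⟨a, b, hab⟩ := Nat.isCoprime_iff_coprime.2 hcop
  -- the transfer of central elements
  have hT : ∀ c (hc' : c ∈ β.ker), (T ⟨(1, c), by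
      rw [hE]; simp only [map_one]; exact ((MonoidHom.mem_ker).1 hc').symm⟩ : Pb) = c ^ P.index := by
    intro c hc'
    have hmem : ((1, c) : H × Pb) ∈ E := by
      rw [hE]; simp only [map_one]; exact ((MonoidHom.mem_ker).1 hc').symm
    have key : ∀ (k : ℕ) (g₀ : E), g₀⁻¹ * (⟨(1, c), hmem⟩ : E) ^ k * g₀ ∈ PE →
        g₀⁻¹ * (⟨(1, c), hmem⟩ : E) ^ k * g₀ = (⟨(1, c), hmem⟩ : E) ^ k := by
      intro k g₀ _
      apply Subtype.ext
      have h1 : ((⟨(1, c), hmem⟩ : E) ^ k : E) * g₀ = g₀ * (⟨(1, c), hmem⟩ : E) ^ k := by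
        apply Subtype.ext
        refine Prod.ext ?_ ?_
        · change (1 : H) ^ k * (g₀ : H × Pb).1 = (g₀ : H × Pb).1 * (1 : H) ^ k
          rw [one_pow, one_mul, mul_one]
        · change c ^ k * (g₀ : H × Pb).2 = (g₀ : H × Pb).2 * c ^ k
          exact hc _ (Subgroup.pow_mem _ hc' k) _
      rw [mul_assoc, h1, ← mul_assoc, inv_mul_cancel, one_mul]
    have h2 := MonoidHom.transfer_eq_pow τ (⟨(1, c), hmem⟩ : E) key
    change ((MonoidHom.transfer τ (⟨(1, c), hmem⟩ : E) : β.ker) : Pb) = _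
    rw [h2]
    change (γ (g _))⁻¹ * (c ^ PE.index) = _
    have h3 : ∀ w : PE, (w : E) = (⟨(1, c), hmem⟩ : E) ^ PE.index → g w = 1 := by
      intro w hw
      apply Subtype.ext
      change π1 (w : E) = 1
      rw [hw, map_pow]
      change (1 : H) ^ PE.index = 1
      rw [one_pow]
    rw [h3 _ rfl, map_one, inv_one, one_mul, hidx]
  let s : E →* Pb := MonoidHom.mk' (fun z => π2 z * ((T z ^ (-a) : β.ker) : Pb)) (by
    intro z z'
    have h1 := hc _ ((T z ^ (-a) : β.ker)).2 (π2 z')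
    rw [map_mul, map_mul, mul_zpow, Subgroup.coe_mul]
    calc π2 z * π2 z' * (((T z ^ (-a) : β.ker) : Pb) * ((T z' ^ (-a) : β.ker) : Pb))
        = π2 z * (π2 z' * ((T z ^ (-a) : β.ker) : Pb)) * ((T z' ^ (-a) : β.ker) : Pb) := by group
      _ = π2 z * (((T z ^ (-a) : β.ker) : Pb) * π2 z') * ((T z' ^ (-a) : β.ker) : Pb) := by rw [h1]
      _ = π2 z * ((T z ^ (-a) : β.ker) : Pb) * (π2 z' * ((T z' ^ (-a) : β.ker) : Pb)) := by group)
  have hs : ∀ z : E, s z = π2 z * ((T z ^ (-a) : β.ker) : Pb) := fun z => rfl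
  have hs1 : ∀ z : E, π1 z = 1 → s z = 1 := by
    intro z hz1
    have hck : π2 z ∈ β.ker := by
      rw [MonoidHom.mem_ker, ← hz, hz1, map_one]
    have h1 := hT (π2 z) hck
    have h2 : (⟨(1, π2 z), by rw [hE]; simp only [map_one]; exact ((MonoidHom.mem_ker).1 hck).symm⟩ : E)
        = z := by
      apply Subtype.ext
      exact Prod.ext hz1.symm rfl
    rw [h2] at h1
    rw [hs, Subgroup.coe_zpow, h1, ← zpow_natCast, ← zpow_mul]
    have h3 : π2 z ^ ((Nat.card Pb : ℕ) : ℤ) = 1 := by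
      rw [zpow_natCast]
      exact pow_card_eq_one'
    have h4 : (1 : ℤ) + (P.index : ℤ) * (-a) = (Nat.card Pb : ℤ) * b := by linarith
    calc π2 z * π2 z ^ ((P.index : ℤ) * (-a)) = π2 z ^ ((1 : ℤ) + (P.index : ℤ) * (-a)) := by
          rw [zpow_add, zpow_one]
      _ = 1 := by rw [h4, zpow_mul, h3, one_zpow]
  have hs2 : ∀ z z' : E, π1 z = π1 z' → s z = s z' := by
    intro z z' h
    have h1 := hs1 (z⁻¹ * z') (by rw [map_mul, map_inv, h, inv_mul_cancel])
    rw [map_mul, map_inv, inv_mul_eq_one] at h1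
    exact h1
  choose l hl using hπ1
  refine ⟨MonoidHom.mk' (fun h => s (l h)) ?_, ?_⟩
  · intro h h'
    rw [← map_mul]
    apply hs2
    rw [hl, map_mul, hl, hl]
  · intro h
    change β (s (l h)) = α h
    have h1 : β ((T (l h) ^ (-a) : β.ker) : Pb) = 1 := (T (l h) ^ (-a) : β.ker).2
    rw [hs, map_mul, h1, mul_one, ← hz, hl]

theorem t_TAT : S_TAT.{u} := by
  intro G _ _ p P N hp hPp hPi hN hH
  haveI : Fact p.Prime := ⟨hp⟩
  classical
  let S : Set G := {x | x ∈ N ∧ ¬ p ∣ orderOf x}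
  let K : Subgroup G := Subgroup.normalClosure S
  have hKn : K.Normal := Subgroup.normalClosure_normal
  have hKN : K ≤ N := Subgroup.normalClosure_le_normal (fun x hx => hx.1)
  refine ⟨K, hKn, hKN, ?_, ?_⟩
  swap
  · intro x hx
    have hx0 : orderOf x ≠ 0 := (orderOf_pos x).ne'
    obtain ⟨k, m, hm, hkm⟩ := Nat.exists_eq_pow_mul_and_not_dvd hx0 p hp.ne_one
    refine ⟨k, Subgroup.subset_normalClosure ⟨N.pow_mem hx _, ?_⟩⟩
    rw [orderOf_pow_of_dvd (pow_ne_zero _ hp.ne_zero) (by rw [hkm]; exact dvd_mul_right _ _), hkm,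
      Nat.mul_div_cancel_left _ (pow_pos hp.pos _)]
    exact hm
  intro hdiv
  -- the intersection of `P` and `K` is not trivial
  have hQ : K.subgroupOf P ≠ ⊥ := by
    intro hbot
    rw [Subgroup.subgroupOf_eq_bot] at hbot
    have hinf : K ⊓ P = ⊥ := hbot.eq_bot
    have h1 : K.relIndex (P ⊔ K) = K.relIndex P := Subgroup.relIndex_sup_right P K
    have h2 : K.relIndex P = Nat.card P := by
      rw [← Subgroup.inf_relIndex_right, hinf, Subgroup.relIndex_bot_left]
    have h3 := Subgroup.relIndex_mul_relIndex ⊥ K (P ⊔ K) bot_le le_sup_right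
    have h4 := Subgroup.relIndex_mul_relIndex ⊥ P (P ⊔ K) bot_le le_sup_left
    rw [Subgroup.relIndex_bot_left] at h3 h4
    rw [h1, h2, ← h4, mul_comm] at h3
    have h5 : Nat.card K = P.relIndex (P ⊔ K) := Nat.eq_of_mul_eq_mul_left Nat.card_pos h3
    apply hPi
    refine hdiv.trans ?_
    rw [h5]
    exact Subgroup.relIndex_dvd_index_of_le le_sup_left
  set Q : Subgroup P := K.subgroupOf P with hQdef
  haveI : Q.Normal := Subgroup.normal_subgroupOf
  let M0 : Subgroup P := ⁅Q, (⊤ : Subgroup P)⁆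
  have hM0Q : M0 ≤ Q := Subgroup.commutator_le_left _ _
  haveI : Finite P := inferInstance
  have hnil : Group.IsNilpotent P := hPp.isNilpotent
  have hnot : ¬ Q ≤ M0 := by
    intro hle
    apply hQ
    have h1 : ∀ n, Q ≤ (⊤ : Subgroup P).lowerCentralSeries n := by
      intro n
      induction n with
      | zero => rw [Subgroup.lowerCentralSeries_zero]; exact le_top
      | succ n ih => exact hle.trans (Subgroup.commutator_mono ih le_top)
    obtain ⟨n, hn⟩ := Subgroup.nilpotent_iff_lowerCentralSeries.1 hnil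
    exact le_bot_iff.1 (hn ▸ h1 n)
  haveI : M0.Normal := Subgroup.commutator_normal _ _
  have hPb : IsPGroup p (P ⧸ M0) := hPp.to_quotient M0
  let mk : P →* P ⧸ M0 := QuotientGroup.mk' M0
  have hmk : Function.Surjective mk := QuotientGroup.mk'_surjective M0
  let H : Subgroup G := P ⊔ K
  let α : H →* G ⧸ K := (QuotientGroup.mk' K).comp H.subtype
  have hα : ∀ h : H, α h = 1 ↔ (h : G) ∈ K := fun h => QuotientGroup.eq_one_iff (h : G)
  let β : P ⧸ M0 →* G ⧸ K := QuotientGroup.lift M0 ((QuotientGroup.mk' K).comp P.subtype) (by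
    intro x hx
    exact (QuotientGroup.eq_one_iff (x : G)).2 (hM0Q hx))
  have hβ : ∀ x : P, β (mk x) = QuotientGroup.mk' K (x : G) := fun x => rfl
  have hβk : ∀ x : P, mk x ∈ β.ker ↔ x ∈ Q := by
    intro x
    rw [MonoidHom.mem_ker, hβ]
    exact QuotientGroup.eq_one_iff (x : G)
  have hαβ : ∀ h, ∃ y, β y = α h := by
    intro h
    have h1 : (h : G) ∈ ((P ⊔ K : Subgroup G) : Set G) := h.2
    rw [Subgroup.mul_normal] at h1
    obtain ⟨x, hx, k, hk, hxk⟩ := h1
    refine ⟨mk ⟨x, hx⟩, ?_⟩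
    rw [hβ]
    change (QuotientGroup.mk x : G ⧸ K) = QuotientGroup.mk (h : G)
    rw [QuotientGroup.eq]
    have h2 : x⁻¹ * (h : G) = k := by
      rw [← hxk]
      exact inv_mul_cancel_left x k
    rw [h2]
    exact hk
  have hc : ∀ c ∈ β.ker, ∀ y, c * y = y * c := by
    intro c hc y
    obtain ⟨q, rfl⟩ := hmk c
    obtain ⟨x, rfl⟩ := hmk y
    rw [hβk] at hc
    rw [← map_mul, ← map_mul]
    change (QuotientGroup.mk (q * x) : P ⧸ M0) = QuotientGroup.mk (x * q)
    rw [QuotientGroup.eq]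
    have h1 : (q * x)⁻¹ * (x * q) = ⁅x⁻¹, q⁻¹⁆ := by
      rw [commutatorElement_def]
      group
    rw [h1]
    change _ ∈ ⁅Q, (⊤ : Subgroup P)⁆
    rw [Subgroup.commutator_comm]
    exact Subgroup.commutator_mem_commutator (Subgroup.mem_top _) (Q.inv_mem hc)
  have hPH : ¬ p ∣ (P.subgroupOf H).index := by
    intro h
    exact hPi (h.trans (Subgroup.relIndex_dvd_index_of_le le_sup_left))
  let γ : P.subgroupOf H →* P ⧸ M0 :=
    mk.comp (Subgroup.subgroupOfEquivOfLe (le_sup_left : P ≤ H)).toMonoidHom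
  obtain ⟨σ, hσ⟩ := split hPb α β hαβ hc (P.subgroupOf H) hPH γ (fun x => rfl)
  -- `σ` is surjective
  have hsur : ∀ y, ∃ h, σ h = y := by
    by_contra hno
    have hR : σ.range ≠ ⊤ := by
      intro h
      apply hno
      intro y
      exact MonoidHom.mem_range.1 (h ▸ Subgroup.mem_top y)
    obtain ⟨n0, hn0⟩ := IsPGroup.iff_card.1 hPb
    obtain ⟨r, hr⟩ := IsPGroup.iff_card.1 (hPb.to_subgroup σ.range)
    have hrn : r < n0 := by
      by_contra h
      rw [not_lt] at h
      apply hR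
      apply Subgroup.eq_top_of_le_card
      rw [hn0, hr]
      exact Nat.pow_le_pow_right hp.pos h
    obtain ⟨Mb, hMb, hRM⟩ := Sylow.exists_subgroup_card_pow_prime_le
      (p := p) (n := r) (m := n0 - 1) (by rw [hn0]; exact pow_dvd_pow _ (by omega)) σ.range hr
      (by omega)
    have hidx : Mb.index = p := by
      have h1 := Mb.card_mul_index
      rw [hMb, hn0, show n0 = (n0 - 1) + 1 by omega, pow_succ, Nat.add_sub_cancel] at h1
      exact Nat.eq_of_mul_eq_mul_left (pow_pos hp.pos _) h1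
    haveI hMbn : Mb.Normal := by
      apply Subgroup.normal_of_index_eq_minFac_card
      rw [hidx, hn0, hp.pow_minFac (by omega)]
    let M : Subgroup G := (Mb.comap mk).map P.subtype
    have hMP : M ≤ P := Subgroup.map_subtype_le _
    have hMrel : M.relIndex P = p := by
      have h1 : M.subgroupOf P = Mb.comap mk := by
        change ((Mb.comap mk).map P.subtype).comap P.subtype = _
        exact Subgroup.comap_map_eq_self_of_injective (Subgroup.subtype_injective P) _
      rw [Subgroup.relIndex, h1, Subgroup.index_comap_of_surjective _ hmk, hidx]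
    have hMN : Nz P M := by
      rintro x hx _ ⟨m, hm, rfl⟩
      refine ⟨⟨x, hx⟩ * m * ⟨x, hx⟩⁻¹, ?_, rfl⟩
      change mk _ ∈ Mb
      rw [map_mul, map_mul, map_inv]
      exact hMbn.conj_mem _ hm _
    have hle := hH M hMP hMrel hMN
    have hQM : ∀ c ∈ β.ker, c ∈ Mb := by
      intro c hc
      obtain ⟨q, rfl⟩ := hmk c
      rw [hβk] at hc
      have h1 : (q : G) ∈ M := hle ⟨hKN hc, q.2⟩
      obtain ⟨q', hq', hqq⟩ := h1
      have h2 : q' = q := Subtype.ext hqq
      rw [← h2]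
      exact hq'
    have htop : Mb = ⊤ := by
      rw [eq_top_iff]
      intro y _
      obtain ⟨x, rfl⟩ := hmk y
      have h1 : (σ ⟨x, (le_sup_left : P ≤ H) x.2⟩)⁻¹ * mk x ∈ β.ker := by
        rw [MonoidHom.mem_ker, map_mul, map_inv, hσ, hβ]
        exact inv_mul_cancel _
      have h2 := Mb.mul_mem (hRM (MonoidHom.mem_range.2 ⟨⟨x, (le_sup_left : P ≤ H) x.2⟩, rfl⟩))
        (hQM _ h1)
      rwa [mul_inv_cancel_left] at h2
    rw [htop, Subgroup.index_top] at hidx
    exact hp.one_lt.ne hidx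
  -- `σ` is trivial on `K`
  have hKH : K ≤ H := le_sup_right
  have htriv : ∀ k (hk : k ∈ K), σ ⟨k, hKH hk⟩ = 1 := by
    have h1 : K ≤ (σ.ker).map H.subtype := by
      change Subgroup.closure (Group.conjugatesOfSet S) ≤ _
      rw [Subgroup.closure_le]
      intro x hx
      have hxK : x ∈ K := Subgroup.subset_closure hx
      obtain ⟨a, ha, hax⟩ := Group.mem_conjugatesOfSet_iff.1 hx
      obtain ⟨c, rfl⟩ := isConj_iff.1 hax
      refine ⟨⟨c * a * c⁻¹, hKH hxK⟩, ?_, rfl⟩
      rw [SetLike.mem_coe, MonoidHom.mem_ker, ← orderOf_eq_one_iff]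
      have h2 : orderOf (σ ⟨c * a * c⁻¹, hKH hxK⟩) ∣ orderOf a := by
        refine (orderOf_map_dvd σ _).trans ?_
        rw [orderOf_dvd_iff_pow_eq_one]
        apply Subtype.ext
        change (c * a * c⁻¹) ^ orderOf a = 1
        rw [conj_pow, pow_orderOf_eq_one, mul_one, mul_inv_cancel]
      obtain ⟨k, hk⟩ := hPb (σ ⟨c * a * c⁻¹, hKH hxK⟩)
      have h3 := orderOf_dvd_of_pow_eq_one hk
      have h4 : Nat.Coprime (orderOf a) (p ^ k) :=
        Nat.Coprime.pow_right _ (((Nat.Prime.coprime_iff_not_dvd hp).2 ha.2).symm)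
      have h5 := Nat.dvd_gcd h2 h3
      rw [h4] at h5
      exact Nat.dvd_one.1 h5
    intro k hk
    obtain ⟨k', hk', hkk⟩ := h1 hk
    have h2 : k' = ⟨k, hKH hk⟩ := Subtype.ext hkk
    rw [← h2]
    exact hk'
  -- the contradiction
  obtain ⟨q, hq, hqM⟩ := SetLike.not_le_iff_exists.1 hnot
  obtain ⟨h, hh⟩ := hsur (mk q)
  have h1 : α h = 1 := by
    rw [← hσ, hh]
    exact (hβk q).2 hq
  have h2 := htriv h ((hα h).1 h1)
  apply hqM
  rw [← QuotientGroup.eq_one_iff]
  change mk q = 1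
  rw [← hh]
  exact h2

end Pool.Agent.J4H28.MX
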